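import Pool.Agent.MVO.StmtsG

/-!
MVO, row TYP: all types can be adjusted.
-/

namespace Pool.Agent.MVO.H41

open Pool.Agent.Helper14_MV Pool.Agent.Helper2_MV Pool.Agent.MVO

theorem typ_rr_mono {ρ ω : FIC} (h : ρ ≤ ω) {u v : List ℕ} (hr : RR ρ u v) : RR ω u v := h _ _ hr

theorem typ_chain {ρ σ : FIC} {k : ℕ} {B B' : ℕ → List ℕ} (hB : BlkOk k B)
    (h : Relation.ReflTransGen (StA ρ σ k) B B') :
    BlkOk k B' ∧ ∀ c, deg k (fun j => (B j).count c) = deg k (fun j => (B' j).count c) := by
  induction h with
  | refl => exact ⟨hB, fun _ => rfl⟩
  | tail _ hst ih => exact ⟨hst.2.1, fun c => (ih.2 c).trans (hst.2.2.1 c)⟩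

theorem typ_gw_congr {k : ℕ} {n n' : ℕ → ℕ → ℕ} {D : ℕ → List ℕ}
    (h : ∀ j ≤ k, ∀ c ∈ D j, n j c = n' j c) : gw k n D = gw k n' D := by
  unfold gw
  apply asm_congr
  intro j hj
  unfold gb
  exact flatMap_congr' fun c hc => by rw [h j hj c hc]

theorem typ (haln : AlnStmt) (hone : OneStmt) : TypStmt := by
  intro β hG hOL ρ σ τ hρ hσ hτ hρτ hn1 hn2 k X B B' hX hNS hB hBX hmult hrτ hch
  obtain ⟨D, hD, hrr⟩ := hG k B X hB hX hNS hBX hmult
  obtain ⟨hB', hdeg⟩ := typ_chain hB hch
  set ω : FIC := FIC.sup ρ (FIC.inf σ τ) with hω
  have hβω : β ≤ ω := fun u v h => FIC.le_sup_left ρ (FIC.inf σ τ) u v (hρ u v h)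
  have hL1 : ∀ c ∈ X, L1 ω k (fun j => (B j).count c) (fun j => (B' j).count c) := by
    intro c hc
    exact hOL ρ σ τ hρ hσ hτ hρτ hn1 hn2 k _ _ (hmult c hc) (hdeg c)
      (hone.1 τ k B B' c (hNS c hc) hB hB' hrτ) (hone.2 ρ σ k B B' c (hNS c hc) hch)
  have claim : ∀ Y : List ℕ, (∀ c ∈ Y, c ∈ X) →
      RR ω (asm k B) (gw k (fun j c => if c ∈ Y then (B' j).count c else (B j).count c) D) := by
    intro Y
    induction Y with
    | nil =>
      intro _
      have h1 : gw k (fun j c => if c ∈ ([] : List ℕ) then (B' j).count c else (B j).count c) D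
          = gw k (fun j c => (B j).count c) D := by
        apply typ_gw_congr
        intro j _ c _
        rw [if_neg List.not_mem_nil]
      rw [h1]
      exact typ_rr_mono hβω hrr
    | cons c Y ih =>
      intro hY
      have ih' := ih fun d hd => hY d (List.mem_cons_of_mem _ hd)
      by_cases hcY : c ∈ Y
      · have h1 : gw k (fun j d => if d ∈ c :: Y then (B' j).count d else (B j).count d) D
            = gw k (fun j d => if d ∈ Y then (B' j).count d else (B j).count d) D := by
          apply typ_gw_congr
          intro j _ d _
          by_cases hd : d ∈ Y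
          · rw [if_pos (List.mem_cons_of_mem _ hd), if_pos hd]
          · have hd' : d ∉ c :: Y := by
              intro h
              rcases List.mem_cons.mp h with h | h
              · exact hd (h ▸ hcY)
              · exact hd h
            rw [if_neg hd', if_neg hd]
        rw [h1]
        exact ih'
      · have hcX : c ∈ X := hY c List.mem_cons_self
        have h0 : (fun j => (fun j d => if d ∈ Y then (B' j).count d else (B j).count d) j c)
            = fun j => (B j).count c := by
          funext j
          simp only [if_neg hcY]
        have h2 := haln ω k X (fun j d => if d ∈ Y then (B' j).count d else (B j).count d) D hX hD c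
          hcX (fun j => (B' j).count c) (by rw [h0]; exact hL1 c hcX)
        have h3 : gw k (fun j => Function.update
            ((fun j d => if d ∈ Y then (B' j).count d else (B j).count d) j) c
              ((fun j => (B' j).count c) j)) D
            = gw k (fun j d => if d ∈ c :: Y then (B' j).count d else (B j).count d) D := by
          apply typ_gw_congr
          intro j _ d _
          by_cases hdc : d = c
          · subst hdc
            rw [Function.update_self, if_pos List.mem_cons_self]
          · rw [Function.update_of_ne hdc]
            show (if d ∈ Y then (B' j).count d else (B j).count d)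
              = if d ∈ c :: Y then (B' j).count d else (B j).count d
            by_cases hd : d ∈ Y
            · rw [if_pos (List.mem_cons_of_mem _ hd), if_pos hd]
            · have hd' : d ∉ c :: Y := by
                intro h
                rcases List.mem_cons.mp h with h | h
                · exact hdc h
                · exact hd h
              rw [if_neg hd', if_neg hd]
        rw [h3] at h2
        exact ω.trans ih' h2
  refine ⟨D, hD, ?_⟩
  have h1 := claim X fun c hc => hc
  have h2 : gw k (fun j c => if c ∈ X then (B' j).count c else (B j).count c) D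
      = gw k (fun j c => (B' j).count c) D := by
    apply typ_gw_congr
    intro j _ c hc
    rw [if_pos ((hD j).mem_iff.mp hc)]
  rw [h2] at h1
  exact h1

end Pool.Agent.MVO.H41
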