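import Pool.Agent.MVO.StmtsD
import Pool.Agent.Helper51_MVO.NCE

/-!
# Squad MVO, row ND2 (helper41): `JJ` or v1 over `O2`, class Cc
-/

set_option autoImplicit false

namespace Pool.Agent.MVO.H41

open Pool.Agent.Helper14_MV Pool.Agent.Helper2_MV Pool.Agent.MVO Pool.Agent.MVO.H51

theorem bt_triv {ρ : FIC} {k i : ℕ} {a b : ℕ → ℕ} (ha : a i = 0) : Bt ρ k a b i := by
  intro e
  unfold Ex
  have h : w2 k a b (flp e i) = w2 k a b e := by
    unfold w2
    apply asm_congr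
    intro j _
    by_cases hj : j = i
    · subst hj
      have h0 : ∀ (q : ℕ) (f : Bool), bl 0 q f = List.replicate q 1 := by
        intro q f
        cases f <;> simp [bl]
      rw [ha, h0, h0]
    · have h1 : flp e i j = e j := if_neg hj
      rw [h1]
  rw [h]
  exact RR.refl _

theorem TA_pin : TPin 3 3 TA := by
  intro a b h
  have h1 := TA_deg a b h
  unfold TA at h
  refine ⟨h1.2, h.2.2.2.2, ?_⟩
  intro j hj hj3
  interval_cases j <;> omega

theorem TB_pin : TPin 3 3 (TB False) := by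
  intro a b h
  have h1 := TB_deg False a b h
  unfold TB at h
  obtain ⟨t1, t2, t3, t4⟩ := h
  rcases t4 with t4 | t4
  · exact absurd t4 (fun h => h)
  · refine ⟨h1.2, t1.2.2.2, ?_⟩
    intro j hj hj3
    interval_cases j <;> omega

theorem nd2 (hLN2 : Ln2Stmt) (hGTC : GtcStmt) (hGTN : GtnStmt) (hGTS : GtsStmt)
    (hGTK : GtkStmt) (hWUB : WubStmt) (_hOPF : OpfStmt) (_hOCR : OcrStmt) (hISO : IsoStmt)
    (hTRF : TrfStmt) (hPPS : PpsStmt) (hZFR : ZfrStmt) : Nd2Stmt := by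
  intro β H hO2
  by_cases hO3 : O3 (FC.ofFIC β)
  · right
    have h1 : L1 β 2 (v3 2 0 1) (v3 3 0 0) := by
      refine (FC.ofFIC β).symm (pushR (FC.ofFIC β) 2 (v2 0 2) (bmap2 (by omega) (by omega))
        hO3 ?_ ?_)
      · intro j hj; interval_cases j <;> simp [psh1, v2, v3]
      · intro j hj; interval_cases j <;> simp [psh1, v2, v3]
    exact hTRF.2.1 β 2 _ _ _ _ 2 h1 ((FC.ofFIC β).refl 2 (v3 0 1 1)) (bt_triv rfl)
  by_cases hO1 : O1 (FC.ofFIC β)
  · right
    have h1 : L1 β 2 (v3 2 0 1) (v3 0 2 1) :=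
      three (FC.ofFIC β) hO1 hO2 (p := 2) (q := 0) (r := 1) (by omega) (by omega) (by omega)
    exact hTRF.2.1 β 2 _ _ _ _ 2 h1 ((FC.ofFIC β).refl 2 (v3 0 1 1))
      (hZFR β H.cc 2 (v3 0 2 1) (v3 0 1 1) 2 1 (by omega) (by omega) (by omega)
        (by simp [v3]) (by simp [v3]) (by simp [v3]) (by simp [v3]))
  by_contra hcon
  rw [not_or] at hcon
  obtain ⟨hJ, hv⟩ := hcon
  have hNC : NC2 β := by
    intro h
    have := iso_ab H.iso (a := 0) (b := 1) (by decide) h
    simp at this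
  -- degrees
  have hdeg : ∀ x x' : ℕ → ℕ, deg 3 x = 3 → L1 β 3 x x' →
      deg 3 x' = 3 ∨ (FC.ofFIC β).R 3 x (sg 0 3) := by
    intro x x' hd h
    by_cases hd' : deg 3 x' = 3
    · exact Or.inl hd'
    · right
      have h1 := (hWUB (FC.ofFIC β) hO2 (cent_v H.ce) 3 x x' (by omega) (by omega) h).1 0
        (by omega)
      rwa [hd] at h1
  have hsg : deg 3 (sg 0 3) = 3 := by simp [deg3, sg]
  have hsg0 : sg 0 3 0 = 3 := by simp [sg]
  have hsg3 : sg 0 3 3 = 0 := by simp [sg]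
  have hdegA : ∀ x x' : ℕ → ℕ, x 0 = 1 ∧ x 1 = 1 ∧ x 2 = 0 ∧ x 3 = 1 → L1 β 3 x x' →
      deg 3 x' = 3 := by
    intro x x' hx h
    rcases hdeg x x' (by rw [deg3]; omega) h with h1 | h1
    · exact h1
    · have h2 := cl_T1 (FC.ofFIC β) hO2 hO3 hJ h1 hsg hx.1 hx.2.1 hx.2.2.1 hx.2.2.2
      omega
  have hy : ∀ y y' : ℕ → ℕ, y 0 = 0 ∧ y 1 = 0 ∧ y 2 = 1 ∧ y 3 = 1 → L1 β 3 y y' →
      y' 0 = 0 ∧ y' 1 = 0 ∧ y' 2 = 1 ∧ y' 3 = 1 := by
    intro y y' hy h
    have h1 := hISO β H.th H.iso 3 y y' (by rw [deg3]; omega) (by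
      intro j hj
      interval_cases j <;> omega) h
    rw [h1 0 (by omega), h1 1 (by omega), h1 2 (by omega), h1 3 (by omega)]
    exact hy
  -- closure
  have clA : ∀ a b a' b', TA a b → L1 β 3 a a' → L1 β 3 b b' → TA a' b' := by
    intro a b a' b' hT ha hb
    refine ⟨?_, hy b b' hT.2 hb⟩
    exact cl_T1 (FC.ofFIC β) hO2 hO3 hJ ha (hdegA a a' hT.1 ha) hT.1.1 hT.1.2.1 hT.1.2.2.1
      hT.1.2.2.2
  have clB : ∀ a b a' b', TB False a b → L1 β 3 a a' → L1 β 3 b b' → TB False a' b' := by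
    intro a b a' b' hT ha hb
    obtain ⟨t1, t2, t3, t4⟩ := hT
    refine ⟨hy b b' t1 hb, ?_⟩
    have hd : deg 3 a = 3 := by rw [deg3]; exact t2
    rcases t4 with t4 | t4
    · exact absurd t4 (fun h => h)
    · have hd' : deg 3 a' = 3 := by
        rcases hdeg a a' hd ha with h1 | h1
        · exact h1
        · have h2 := cl_N1 (FC.ofFIC β) hO1 hO2 hO3 h1 hsg t4.1 t4.2.1 t4.2.2.1 t4.2.2.2
          omega
      have h2 := cl_N1 (FC.ofFIC β) hO1 hO2 hO3 ha hd' t4.1 t4.2.1 t4.2.2.1 t4.2.2.2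
      exact ⟨by rw [← deg3]; exact hd', by omega, Or.inr h2⟩
  -- no exchange
  have nex : ∀ x y : ℕ → ℕ, x 0 + x 1 = 2 ∧ x 2 = 0 ∧ x 3 = 1 →
      y 0 = 0 ∧ y 1 = 0 ∧ y 2 = 1 ∧ y 3 = 1 → ¬ Bt β 3 x y 3 := by
    intro x y hx hy hB
    apply hv
    have e1 : psh 3 (v4 0 0 1 2) x = v3 2 0 1 := by
      funext j
      rw [psh3]
      match j with
      | 0 => simp [v4, v3, hx.1]
      | 1 => simp [v4, v3, hx.2.1]
      | 2 => simp [v4, v3, hx.2.2]
      | (n + 3) => simp [v4, v3]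
    have e2 : psh 3 (v4 0 0 1 2) y = v3 0 1 1 := by
      funext j
      rw [psh3]
      match j with
      | 0 => simp [v4, v3, hy.1, hy.2.1]
      | 1 => simp [v4, v3, hy.2.2.1]
      | 2 => simp [v4, v3, hy.2.2.2]
      | (n + 3) => simp [v4, v3]
    have h1 := hPPS β 3 2 (v4 0 0 1 2) x y 3
      (bmap4 (by omega) (by omega) (by omega) (by omega)) (by omega) (by
        intro j hj hj2
        rw [e1, e2]
        have h3 : j ≠ 2 := hj2
        have h4 : j = 0 ∨ j = 1 := by omega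
        rcases h4 with h4 | h4
        · subst h4; right; rfl
        · subst h4; left; rfl) (by
        intro j hj hj3 hf
        exfalso
        interval_cases j <;> simp [v4] at hf hj3) hB
    rw [e1, e2] at h1
    exact h1
  have noA : ∀ a b, TA a b → ¬ Bt β 3 a b 3 := fun a b hT =>
    nex a b ⟨by have := hT.1; omega, hT.1.2.2.1, hT.1.2.2.2⟩ hT.2
  have noB : ∀ a b, TB False a b → ¬ Bt β 3 a b 3 := by
    intro a b hT
    obtain ⟨t1, t2, t3, t4⟩ := hT
    rcases t4 with t4 | t4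
    · exact absurd t4 (fun h => h)
    · exact nex a b ⟨t4.2.1, t4.2.2.1, t4.2.2.2⟩ t1
  have leA : β ≤ GT 3 TA :=
    hGTC β H.th hNC H.cc.1 3 3 TA (by omega) TA_ext TA_last TA_pin clA noA
  have leB : β ≤ GT 3 (TB False) :=
    hGTC β H.th hNC H.cc.1 3 3 _ (by omega) (TB_ext _) (TB_last _) TB_pin clB noB
  -- the exchange in `G1`
  have x2 : Bt (GT 3 TA) 3 (v4 0 2 0 1) (v4 0 0 1 1) 3 := by
    refine hGTS 3 TA TA_ext TA_deg 3 _ _ (by simp [deg3, v4]) (by simp [deg3, v4]) ?_ 3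
    intro f hf hT
    have h1 := hT.1
    have hm := hf.mono 1 3 (by omega) (by omega)
    have hle := hf.le 3 (by omega)
    simp only [psh3, v4] at h1
    generalize f 0 = m at h1
    generalize f 2 = m' at h1
    generalize f 1 = p at h1 hm
    generalize f 3 = q at h1 hm hle
    interval_cases q <;> interval_cases p <;> simp at h1
  -- the one letter identity in `G2`
  have x4 : L1 (GT 3 (TB False)) 3 (v4 0 2 0 1) (v4 1 1 0 1) := by
    refine hGTK 3 _ (TB_ext _) (TB_deg _) 3 _ _ (by simp [deg3, v4]) (by simp [deg3, v4])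
      (by simp [v4]) (by simp [v4]) ?_
    intro f hf b
    have h1 := hf.mono 0 1 (by omega) (by omega)
    have h2 := hf.mono 1 3 (by omega) (by omega)
    have h3 := hf.le 3 (by omega)
    unfold TB
    simp only [psh3, v4]
    generalize f 2 = m
    generalize f 0 = p at h1
    generalize f 1 = q at h1 h2
    generalize f 3 = r at h2 h3
    interval_cases r <;> interval_cases q <;> interval_cases p <;> simp
  have fin := hLN2 β H.th hNC H.g2 H.rg H.md _ _ leA leB 3 (v4 0 2 0 1)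
    (v4 1 1 0 1) (v4 0 0 1 1) 3 (by simp [deg3, v4]) (by simp [deg3, v4]) (by simp [deg3, v4])
    (by omega) x2 x4
  rcases fin with fin | fin
  · exact hGTN 3 3 TA TA_ext TA_last (by omega) _ _ (by simp [TA, v4]) fin
  · exact hGTN 3 3 _ (TB_ext _) (TB_last _) (by omega) _ _ (by simp [TB, v4]) fin

end Pool.Agent.MVO.H41
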