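import Pool.Agent.MVO.StmtsA
import Pool.Agent.Helper39_MVO.OCA
import Pool.Agent.Helper65_MVO.TAC

/-!
# Squad MVO, row TAB (helper41): tightness of class a over `O2`
-/

set_option autoImplicit false

namespace Pool.Agent.MVO.H41

open Pool.Agent.Helper14_MV Pool.Agent.Helper2_MV Pool.Agent.MVO

namespace TabRow

open Pool.Agent.MVO.H65.TacRow

/-! ### the first elements of a set -/

theorem mem_tr {m : ℕ} {P : Finset ℕ} {j : ℕ} :
    j ∈ tr m P ↔ j ∈ P ∧ (P.filter (fun i => i < j)).card < m := by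
  unfold tr
  rw [Finset.mem_filter]

theorem rk_mono {P : Finset ℕ} {i j : ℕ} (h : i ≤ j) :
    (P.filter (fun l => l < i)).card ≤ (P.filter (fun l => l < j)).card := by
  apply Finset.card_le_card
  intro l hl
  rw [Finset.mem_filter] at hl ⊢
  exact ⟨hl.1, by omega⟩

theorem rk_lt {P : Finset ℕ} {i j : ℕ} (hi : i ∈ P) (h : i < j) :
    (P.filter (fun l => l < i)).card < (P.filter (fun l => l < j)).card := by
  apply Finset.card_lt_card
  rw [Finset.ssubset_iff_of_subset]
  · exact ⟨i, Finset.mem_filter.2 ⟨hi, h⟩, fun h2 => absurd (Finset.mem_filter.1 h2).2 (by omega)⟩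
  · intro l hl
    rw [Finset.mem_filter] at hl ⊢
    exact ⟨hl.1, by omega⟩

theorem tr_tr {n m : ℕ} (h : n ≤ m) (P : Finset ℕ) : tr n (tr m P) = tr n P := by
  ext j
  rw [mem_tr, mem_tr, mem_tr]
  have key : (P.filter (fun i => i < j)).card < m →
      (tr m P).filter (fun i => i < j) = P.filter (fun i => i < j) := by
    intro hj
    ext i
    rw [Finset.mem_filter, Finset.mem_filter, mem_tr]
    constructor
    · rintro ⟨⟨h1, _⟩, h3⟩
      exact ⟨h1, h3⟩
    · rintro ⟨h1, h3⟩
      exact ⟨⟨h1, lt_of_le_of_lt (rk_mono h3.le) hj⟩, h3⟩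
  constructor
  · rintro ⟨⟨h1, h2⟩, h3⟩
    rw [key h2] at h3
    exact ⟨h1, h3⟩
  · rintro ⟨h1, h3⟩
    have h2 := lt_of_lt_of_le h3 h
    refine ⟨⟨h1, h2⟩, ?_⟩
    rw [key h2]
    exact h3

theorem image_rk (P : Finset ℕ) :
    P.image (fun j => (P.filter (fun l => l < j)).card) = Finset.range P.card := by
  apply Finset.eq_of_subset_of_card_le
  · intro r hr
    obtain ⟨j, hj, rfl⟩ := Finset.mem_image.1 hr
    rw [Finset.mem_range]
    apply Finset.card_lt_card
    rw [Finset.filter_ssubset]
    exact ⟨j, hj, by omega⟩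
  · rw [Finset.card_range, Finset.card_image_of_injOn]
    intro i hi j hj hij
    rcases lt_trichotomy i j with h | h | h
    · exact absurd hij (ne_of_lt (rk_lt hi h))
    · exact h
    · exact absurd hij.symm (ne_of_lt (rk_lt hj h))

theorem card_tr (m : ℕ) (P : Finset ℕ) : (tr m P).card = min m P.card := by
  have h1 : (tr m P).image (fun j => (P.filter (fun l => l < j)).card) =
      (Finset.range P.card).filter (fun r => r < m) := by
    rw [← image_rk P, Finset.filter_image]
    rfl
  have h2 : ((Finset.range P.card).filter (fun r => r < m)).card = min m P.card := by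
    have h3 : (Finset.range P.card).filter (fun r => r < m) = Finset.range (min m P.card) := by
      ext r
      rw [Finset.mem_filter, Finset.mem_range, Finset.mem_range, lt_min_iff]
      exact And.comm
    rw [h3, Finset.card_range]
  rw [← h2, ← h1, Finset.card_image_of_injOn]
  intro i hi j hj hij
  have hi' : i ∈ P := tr_sub hi
  have hj' : j ∈ P := tr_sub hj
  rcases lt_trichotomy i j with h | h | h
  · exact absurd hij (ne_of_lt (rk_lt hi' h))
  · exact h
  · exact absurd hij.symm (ne_of_lt (rk_lt hj' h))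

theorem tr_erase {P : Finset ℕ} {l : ℕ} (hl : l ∈ P) (hmax : ∀ j ∈ P, j ≤ l) :
    tr (P.card - 1) P = P.erase l := by
  apply Finset.eq_of_subset_of_card_le
  · intro j hj
    rw [Finset.mem_erase]
    refine ⟨?_, tr_sub hj⟩
    rintro rfl
    exact tr_top hl hmax hj
  · rw [card_tr, Finset.card_erase_of_mem hl]
    exact le_min le_rfl (Nat.sub_le _ _)

theorem min_mem_tr {P : Finset ℕ} {p m : ℕ} (hm : 1 ≤ m) (hp : p ∈ P) (hmin : ∀ j ∈ P, p ≤ j) :
    p ∈ tr m P := by
  rw [mem_tr]
  refine ⟨hp, ?_⟩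
  have h1 : P.filter (fun i => i < p) = ∅ := by
    apply Finset.filter_false_of_mem
    intro j hj
    have := hmin j hj
    omega
  rw [h1, Finset.card_empty]
  omega

theorem tr_one {P : Finset ℕ} {p : ℕ} (hp : p ∈ P) (hmin : ∀ j ∈ P, p ≤ j) :
    tr 1 P = {p} := by
  symm
  apply Finset.eq_of_subset_of_card_le
  · intro j hj
    rw [Finset.mem_singleton] at hj
    rw [hj]
    exact min_mem_tr le_rfl hp hmin
  · rw [card_tr, Finset.card_singleton]
    exact min_le_left _ _

theorem tr_zero (P : Finset ℕ) : tr 0 P = ∅ := by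
  unfold tr
  apply Finset.filter_false_of_mem
  intro j _
  omega

/-! ### chains -/

theorem chain {R : FC} (h3 : O3 R) {d k c : ℕ} (hc1 : 1 ≤ c) : ∀ (n : ℕ) (x y : ℕ → ℕ),
    deg k x = d → deg k y = d → (pr k x).card = c + n → pr k y = tr c (pr k x) →
    (∀ m, c < m → m ≤ c + n → JP R m d) → R.R k x y := by
  intro n
  induction n with
  | zero =>
    intro x y hx hy hcard hpy _
    apply H39.oca R k _ _ h3 (hx.trans hy.symm)
    rw [hpy, tr_eq_self (by omega)]
  | succ n ih =>
    intro x y hx hy hcard hpy hJ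
    have hsub : tr (c + n) (pr k x) ⊆ Finset.range (k + 1) := tr_sub.trans pr_sub_range
    have hcd : (tr (c + n) (pr k x)).card = c + n := by
      rw [card_tr, hcard]
      exact min_eq_left (by omega)
    obtain ⟨q, hq, hqq⟩ := exists_max
      (Finset.card_pos.1 (by omega : 0 < (tr (c + n) (pr k x)).card))
    have hle : (tr (c + n) (pr k x)).card ≤ d := by
      rw [← hx]
      exact (Finset.card_le_card tr_sub).trans card_pr_le
    have hdz := deg_rp hsub hq hle
    have hpz := pr_rp (d := d) hsub hq hqq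
    refine R.trans (hJ (c + (n + 1)) (by omega) le_rfl k x (rp (tr (c + n) (pr k x)) q d)
      hx hdz hcard ?_) ?_
    · rw [hpz]
      have h5 : c + (n + 1) - 1 = c + n := by omega
      rw [h5]
    · apply ih _ y hdz hy
      · rw [hpz, hcd]
      · rw [hpz, tr_tr (by omega), hpy]
      · intro m hm hm'
        exact hJ m hm (by omega)

theorem chain' {R : FC} (h3 : O3 R) {d k c : ℕ} (hc1 : 1 ≤ c) {x y : ℕ → ℕ}
    (hx : deg k x = d) (hy : deg k y = d) (hcard : c ≤ (pr k x).card)
    (hpy : pr k y = tr c (pr k x)) (hJ : ∀ m, c < m → m ≤ (pr k x).card → JP R m d) :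
    R.R k x y := by
  apply chain h3 hc1 ((pr k x).card - c) x y hx hy (by omega) hpy
  intro m hm hm'
  exact hJ m hm (by omega)

theorem a3_push {R : FC} {k d p q : ℕ} (hA : A3 R d) (hpq : p ≤ q) (hq : q ≤ k) :
    R.R k (sg p d) (psh 1 (tb p q) (v2 1 (d - 1))) := by
  refine R.ext ?_ (fun j _ => rfl) (R.push k (tb p q) (bmap_tb hpq hq) hA)
  intro j _
  rw [psh_tb]
  unfold sg
  rw [ite_self, Nat.add_zero]

theorem to_sg {R : FC} (h3 : O3 R) {k d p : ℕ} {x : ℕ → ℕ} (hd : deg k x = d) (hd2 : 2 ≤ d)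
    (hA : A3 R d) (hJ : ∀ m, 3 ≤ m → m ≤ (pr k x).card → JP R m d) (hp : p ∈ pr k x)
    (hmin : ∀ j ∈ pr k x, p ≤ j) : R.R k x (sg p d) := by
  have hpk : p ≤ k := by
    have := Finset.mem_range.1 (pr_sub_range hp)
    omega
  by_cases hcard : (pr k x).card ≤ 1
  · have h1 : pr k x = {p} := by rw [← tr_one hp hmin, tr_eq_self hcard]
    have hs : ({p} : Finset ℕ) ⊆ Finset.range (k + 1) := by rw [← h1]; exact pr_sub_range
    have e : ∀ j, rp {p} p d j = sg p d j := by
      intro j
      unfold rp sg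
      rw [Finset.card_singleton]
      by_cases h : j = p
      · rw [if_pos (Finset.mem_singleton.2 h), if_pos h, if_pos h]
        omega
      · rw [if_neg (fun h2 => h (Finset.mem_singleton.1 h2)), if_neg h, if_neg h]
    refine R.ext (fun j _ => rfl) (fun j _ => e j) (H39.oca R k x (rp {p} p d) h3 ?_ ?_)
    · rw [hd, deg_rp hs (Finset.mem_singleton_self p) (by rw [Finset.card_singleton]; omega)]
    · rw [h1, pr_rp hs (Finset.mem_singleton_self p)
        (fun j hj => le_of_eq (Finset.mem_singleton.1 hj))]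
  · have hc2 : (tr 2 (pr k x)).card = 2 := by
      rw [card_tr]
      exact min_eq_left (by omega)
    have hp2 : p ∈ tr 2 (pr k x) := min_mem_tr (by omega) hp hmin
    obtain ⟨q, hq, hqq⟩ := exists_max ⟨p, hp2⟩
    have hqk : q ≤ k := by
      have := Finset.mem_range.1 (pr_sub_range (tr_sub hq))
      omega
    have hpq : p < q := by
      rcases Nat.lt_or_ge p q with h | h
      · exact h
      · exfalso
        have h4 : tr 2 (pr k x) ⊆ {p} := by
          intro j hj
          have h5 := hqq j hj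
          have h6 := hmin j (tr_sub hj)
          rw [Finset.mem_singleton]
          omega
        have h7 := Finset.card_le_card h4
        rw [Finset.card_singleton] at h7
        omega
    have hset : tr 2 (pr k x) = {p, q} := by
      symm
      apply Finset.eq_of_subset_of_card_le
      · intro j hj
        rw [Finset.mem_insert, Finset.mem_singleton] at hj
        rcases hj with h | h
        · rw [h]; exact hp2
        · rw [h]; exact hq
      · rw [hc2, Finset.card_pair (by omega)]
    have hsub : tr 2 (pr k x) ⊆ Finset.range (k + 1) := tr_sub.trans pr_sub_range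
    have h5 := chain' h3 (by omega : 1 ≤ 2) (y := rp (tr 2 (pr k x)) q d) hd
      (deg_rp hsub hq (by omega)) (by omega) (pr_rp hsub hq hqq)
      (fun m hm hm' => hJ m (by omega) hm')
    refine R.trans h5 (R.symm (R.ext (fun j _ => rfl) ?_ (a3_push hA hpq.le hqk)))
    intro j _
    rw [psh_tb]
    unfold rp
    rw [hc2, hset]
    by_cases h6 : j = p
    · rw [if_pos h6, if_neg (by omega), if_pos (by rw [h6]; exact Finset.mem_insert_self _ _),
        if_neg (by omega)]
    · rw [if_neg h6]
      by_cases h7 : j = q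
      · rw [if_pos h7, if_pos h7, if_pos (by
          rw [h7]; exact Finset.mem_insert_of_mem (Finset.mem_singleton_self _))]
        omega
      · rw [if_neg h7, if_neg h7, if_neg]
        intro h8
        rw [Finset.mem_insert, Finset.mem_singleton] at h8
        exact h8.elim h6 h7

/-! ### maps of blocks -/

theorem deg_psh {k k' : ℕ} {f : ℕ → ℕ} (hf : ∀ i ≤ k, f i ≤ k') (a : ℕ → ℕ) :
    deg k' (psh k f a) = deg k a := by
  unfold deg psh
  rw [Finset.sum_comm]
  apply Finset.sum_congr rfl
  intro i hi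
  rw [Finset.mem_range] at hi
  have h1 := hf i (by omega)
  rw [Finset.sum_ite_eq, if_pos (Finset.mem_range.2 (by omega))]

theorem le_psh {k i : ℕ} {f : ℕ → ℕ} (hi : i ≤ k) (a : ℕ → ℕ) : a i ≤ psh k f a (f i) := by
  unfold psh
  have h1 := Finset.single_le_sum (f := fun l => if f l = f i then a l else 0)
    (fun _ _ => Nat.zero_le _) (Finset.mem_range.2 (by omega : i < k + 1))
  simp only [if_true] at h1
  exact h1

/-- the map of three blocks -/
def th (p q r : ℕ) : ℕ → ℕ := fun t => if t = 0 then p else if t = 1 then q else r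

theorem bmap_th {k p q r : ℕ} (h : p ≤ q) (hqr : q ≤ r) (hr : r ≤ k) : BMap 2 k (th p q r) := by
  refine ⟨?_, ?_⟩
  · intro i j hij _
    unfold th
    by_cases h1 : j = 0
    · rw [if_pos h1, if_pos (by omega)]
    · rw [if_neg h1]
      by_cases h2 : j = 1
      · rw [if_pos h2]
        by_cases h3 : i = 0
        · rw [if_pos h3]
          exact h
        · rw [if_neg h3, if_pos (by omega)]
      · rw [if_neg h2]
        by_cases h3 : i = 0
        · rw [if_pos h3]
          omega
        · rw [if_neg h3]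
          by_cases h4 : i = 1
          · rw [if_pos h4]
            exact hqr
          · rw [if_neg h4]
  · intro i _
    unfold th
    by_cases h3 : i = 0
    · rw [if_pos h3]
      omega
    · rw [if_neg h3]
      by_cases h4 : i = 1
      · rw [if_pos h4]
        omega
      · rw [if_neg h4]
        exact hr

theorem psh_th (p q r u v w : ℕ) (j : ℕ) :
    psh 2 (th p q r) (v3 u v w) j =
      (if j = p then u else 0) + (if j = q then v else 0) + (if j = r then w else 0) := by
  unfold psh
  rw [Finset.sum_range_succ, Finset.sum_range_succ, Finset.sum_range_succ,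
    Finset.sum_range_zero, Nat.zero_add]
  have h2 : ¬ (2 : ℕ) = 0 := by decide
  have h3 : ¬ (2 : ℕ) = 1 := by decide
  simp only [th, v3, if_true, one_ne_zero, if_false, h2, h3, eq_comm (a := j)]

theorem deg_v3 (p q r : ℕ) : deg 2 (v3 p q r) = p + q + r := by
  unfold deg
  rw [Finset.sum_range_succ, Finset.sum_range_succ, Finset.sum_range_succ,
    Finset.sum_range_zero, Nat.zero_add]
  simp [v3]

theorem sp_v3_max (p q r : ℕ) (hr : r ≠ 0) : (sp 2 (v3 p q r)).max = ((2 : ℕ) : WithBot ℕ) := by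
  apply max_of
  · rw [mem_sp']
    exact ⟨le_refl 2, by simpa [v3] using hr⟩
  · intro j hj
    exact (mem_sp'.1 hj).1

theorem deg_add (k : ℕ) (a b : ℕ → ℕ) : deg k (fun j => a j + b j) = deg k a + deg k b := by
  unfold deg
  exact Finset.sum_add_distrib

/-! ### the reversed relation `JJ` gives `JP` -/

theorem jp_of {R : FC} (h3 : O3 R) (hJ : R.R 2 (v3 1 1 1) (v3 1 2 0)) {m d : ℕ} (hm : 3 ≤ m) :
    JP R m d := by
  intro k a b ha hb hcard hpb
  obtain ⟨t, ht, htt⟩ := exists_max (Finset.card_pos.1 (by omega : 0 < (pr k a).card))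
  have hc1 : ((pr k a).erase t).card = m - 1 := by rw [Finset.card_erase_of_mem ht, hcard]
  obtain ⟨s, hs, hss⟩ := exists_max
    (Finset.card_pos.1 (by omega : 0 < ((pr k a).erase t).card))
  have hc2 : (((pr k a).erase t).erase s).card = m - 2 := by
    rw [Finset.card_erase_of_mem hs, hc1]
    omega
  obtain ⟨r, hr⟩ := Finset.card_pos.1 (by omega : 0 < (((pr k a).erase t).erase s).card)
  have hr1 := Finset.mem_erase.1 hr
  have hr2 := Finset.mem_erase.1 hr1.2
  have hs1 := Finset.mem_erase.1 hs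
  have hrs : r < s := by
    have := hss r hr1.2
    have := hr1.1
    omega
  have hst : s < t := by
    have := htt s hs1.2
    have := hs1.1
    omega
  have htk : t ≤ k := by
    have := Finset.mem_range.1 (pr_sub_range ht)
    omega
  have hcd : (pr k a).card ≤ d := by
    rw [← ha]
    exact card_pr_le
  have hdr := deg_rp (d := d) pr_sub_range ht hcd
  have hrt : ¬ r = t := by omega
  have hst' : ¬ s = t := by omega
  have hrs' : ¬ r = s := by omega
  let w : ℕ → ℕ := fun j => if j = r ∨ j = s then 0 else if j = t then d - m else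
    if j ∈ pr k a then 1 else 0
  have hE : ∀ j, psh 2 (th r s t) (v3 1 1 1) j + w j = rp (pr k a) t d j := by
    intro j
    rw [psh_th]
    unfold rp
    rw [hcard]
    change _ + (if j = r ∨ j = s then 0 else if j = t then d - m else
      if j ∈ pr k a then 1 else 0) = _
    by_cases e1 : j = r
    · have n2 : ¬ j = s := by omega
      have n3 : ¬ j = t := by omega
      have n4 : j ∈ pr k a := by rw [e1]; exact hr2.2
      have n5 : j = r ∨ j = s := Or.inl e1
      simp only [if_pos e1, if_neg n2, if_neg n3, if_pos n4, if_pos n5]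
    · by_cases e2 : j = s
      · have n3 : ¬ j = t := by omega
        have n4 : j ∈ pr k a := by rw [e2]; exact hs1.2
        have n5 : j = r ∨ j = s := Or.inr e2
        simp only [if_neg e1, if_pos e2, if_neg n3, if_pos n4, if_pos n5]
      · have n5 : ¬ (j = r ∨ j = s) := by omega
        by_cases e4 : j = t
        · have n4 : j ∈ pr k a := by rw [e4]; exact ht
          simp only [if_neg e1, if_neg e2, if_pos e4, if_pos n4, if_neg n5]
        · simp only [if_neg e1, if_neg e2, if_neg e4, if_neg n5, Nat.zero_add, Nat.add_zero]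
  let z : ℕ → ℕ := fun j => psh 2 (th r s t) (v3 1 2 0) j + w j
  have hz : ∀ j, z j = (if j = s then 2 else 0) + (if j = t then d - m else 0) +
      (if j ∈ ((pr k a).erase t).erase s then 1 else 0) := by
    intro j
    change psh 2 (th r s t) (v3 1 2 0) j + (if j = r ∨ j = s then 0 else if j = t then d - m else
      if j ∈ pr k a then 1 else 0) = _
    rw [psh_th]
    by_cases e1 : j = r
    · have n2 : ¬ j = s := by omega
      have n3 : ¬ j = t := by omega
      have n4 : j ∈ ((pr k a).erase t).erase s := by rw [e1]; exact hr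
      have n5 : j = r ∨ j = s := Or.inl e1
      simp only [if_pos e1, if_neg n2, if_neg n3, if_pos n4, if_pos n5]
    · by_cases e2 : j = s
      · have n3 : ¬ j = t := by omega
        have n4 : j ∉ ((pr k a).erase t).erase s := by
          rw [e2]; exact fun h => (Finset.mem_erase.1 h).1 rfl
        have n5 : j = r ∨ j = s := Or.inr e2
        simp only [if_neg e1, if_pos e2, if_neg n3, if_neg n4, if_pos n5]
      · have n5 : ¬ (j = r ∨ j = s) := by omega
        by_cases e4 : j = t
        · have n4 : j ∉ ((pr k a).erase t).erase s := by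
            rw [e4]; exact fun h => (Finset.mem_erase.1 (Finset.mem_erase.1 h).2).1 rfl
          simp only [if_neg e1, if_neg e2, if_pos e4, if_neg n4, if_neg n5]
          omega
        · by_cases e5 : j ∈ pr k a
          · have n4 : j ∈ ((pr k a).erase t).erase s :=
              Finset.mem_erase.2 ⟨e2, Finset.mem_erase.2 ⟨e4, e5⟩⟩
            simp only [if_neg e1, if_neg e2, if_neg e4, if_neg n5, if_pos e5, if_pos n4]
          · have n4 : j ∉ ((pr k a).erase t).erase s := fun h =>
              e5 (Finset.mem_erase.1 (Finset.mem_erase.1 h).2).2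
            simp only [if_neg e1, if_neg e2, if_neg e4, if_neg n5, if_neg e5, if_neg n4]
  have hbm := bmap_th (k := k) hrs.le hst.le htk
  have hdz : deg k z = d := by
    have h4 : deg k (fun j => psh 2 (th r s t) (v3 1 1 1) j + w j) = d := by
      rw [funext hE]
      exact hdr
    rw [deg_add, deg_psh hbm.le, deg_v3] at h4
    change deg k (fun j => psh 2 (th r s t) (v3 1 2 0) j + w j) = d
    rw [deg_add, deg_psh hbm.le, deg_v3]
    omega
  have hpz : pr k z = (pr k a).erase t := by
    ext j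
    rw [H39.mem_pr]
    constructor
    · rintro ⟨⟨h4, h5⟩, h6⟩
      have hjs : j ≤ s := by
        by_contra h7
        have h8 := h6 s (by omega)
        rw [hz, if_pos rfl] at h8
        omega
      by_cases hj : j = s
      · rw [hj]
        exact hs
      · rw [hz, if_neg hj, if_neg (by omega)] at h5
        by_cases h9 : j ∈ ((pr k a).erase t).erase s
        · exact (Finset.mem_erase.1 h9).2
        · rw [if_neg h9] at h5
          exact absurd rfl h5
    · intro hj
      have hjs := hss j hj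
      have hjk : j ≤ k := by omega
      refine ⟨⟨hjk, ?_⟩, ?_⟩
      · rw [hz]
        by_cases e : j = s
        · rw [if_pos e]
          omega
        · rw [if_pos (Finset.mem_erase.2 ⟨e, hj⟩)]
          omega
      · intro i hi
        rw [hz, if_neg (by omega), if_neg (by omega)]
        by_cases h9 : i ∈ ((pr k a).erase t).erase s
        · rw [if_pos h9]
        · rw [if_neg h9]
          omega
  have h1 : R.R k (rp (pr k a) t d) z :=
    R.ext (fun j _ => hE j) (fun j _ => rfl) (R.add w (R.push k (th r s t) hbm hJ))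
  have h2 : R.R k a (rp (pr k a) t d) := by
    apply H39.oca R k _ _ h3
    · rw [ha, hdr]
    · rw [pr_rp pr_sub_range ht htt]
  have h5 : R.R k z b := by
    apply H39.oca R k _ _ h3
    · rw [hdz, hb]
    · rw [hpz, hpb, ← hcard, tr_erase ht htt]
  exact R.trans h2 (R.trans h1 h5)

theorem pr_sq0 {k : ℕ} {a : ℕ → ℕ} (h : 2 ≤ a 0) : pr k a = {0} := by
  ext j
  rw [H39.mem_pr, Finset.mem_singleton]
  constructor
  · rintro ⟨_, h2⟩
    by_contra h3
    have := h2 0 (by omega)
    omega
  · intro hj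
    rw [hj]
    exact ⟨⟨Nat.zero_le _, by omega⟩, fun i hi => by omega⟩

theorem a3_of {R : FC} (h3 : O3 R) (h1 : R.R 1 (v2 2 1) (v2 1 2)) {d : ℕ} (hd : 3 ≤ d) :
    A3 R d := by
  have h4 := R.add (v2 0 (d - 3)) (R.trans h3 h1)
  have h5 : R.R 1 (v2 d 0) (fun j => v2 3 0 j + v2 0 (d - 3) j) := by
    apply H39.oca R 1 _ _ h3
    · rw [deg_add, deg_v2, deg_v2, deg_v2]
      omega
    · rw [pr_sq0 (by change 2 ≤ d; omega), pr_sq0 (by change 2 ≤ 3 + 0; omega)]
  refine R.trans h5 (R.ext (fun j _ => rfl) ?_ h4)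
  intro j hj
  unfold v2
  by_cases e : j = 0
  · rw [if_pos e, if_pos e, if_pos e]
  · rw [if_neg e, if_neg e, if_neg e, if_pos (by omega), if_pos (by omega), if_pos (by omega)]
    omega

/-! ### exchanges -/

theorem bt_ext {ρ : FIC} {k i : ℕ} {a a' b b' : ℕ → ℕ} (ha : ∀ j ≤ k, a j = a' j)
    (hb : ∀ j ≤ k, b j = b' j) (h : Bt ρ k a b i) : Bt ρ k a' b' i := by
  intro e
  have h1 := h e
  have h2 : ∀ e : ℕ → Bool, w2 k a b e = w2 k a' b' e := by
    intro e
    unfold w2
    apply asm_congr
    intro j hj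
    rw [ha j hj, hb j hj]
  unfold Ex at h1 ⊢
  rw [← h2, ← h2]
  exact h1

theorem bt_mono {β ρ : FIC} (h : β ≤ ρ) {k i : ℕ} {a b : ℕ → ℕ} (hb : Bt β k a b i) :
    Bt ρ k a b i := fun e => rr_mono h (hb e)

/-- domination -/
theorem dom (hfaa : FaaStmt) {ρ : FIC} (hc : ClA ρ) {K k i0 i : ℕ} {F A0 B0 A B : ℕ → ℕ}
    (hF : BMap K k F) (hFi : F i0 = i) (hi0 : i0 ≤ K) (hA0 : 2 ≤ deg K A0) (hB0 : 2 ≤ deg K B0)
    (hmA0 : (sp K A0).max = (i0 : WithBot ℕ)) (hmB0 : (sp K B0).max = (i0 : WithBot ℕ))
    (hbt : Bt ρ K A0 B0 i0) (hA : ∀ j ≤ k, psh K F A0 j ≤ A j)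
    (hB : ∀ j ≤ k, psh K F B0 j ≤ B j) (hmA : (sp k A).max = (i : WithBot ℕ))
    (hmB : (sp k B).max = (i : WithBot ℕ)) : Bt ρ k A B i := by
  obtain ⟨_, _, F3, F4, _, _⟩ := hfaa ρ hc
  have hik : i ≤ k := by rw [← hFi]; exact hF.le i0 hi0
  have h1 : Bt ρ k (psh K F A0) (psh K F B0) i := by
    rw [← hFi]
    exact F4 K k F A0 B0 i0 hF hA0 hB0 hi0 hmA0 hmB0 hbt
  have hmx : ∀ (C0 C : ℕ → ℕ), (sp K C0).max = (i0 : WithBot ℕ) →
      (∀ j ≤ k, psh K F C0 j ≤ C j) → (sp k C).max = (i : WithBot ℕ) →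
        (sp k (psh K F C0)).max = (i : WithBot ℕ) := by
    intro C0 C h2 h3 h4
    apply max_of
    · rw [mem_sp']
      refine ⟨hik, ?_⟩
      have h5 : C0 i0 ≠ 0 := (mem_sp'.1 (Finset.mem_of_max h2)).2
      have h6 := le_psh (f := F) hi0 C0
      rw [hFi] at h6
      omega
    · intro j hj
      have h5 := mem_sp'.1 hj
      have h6 := h3 j h5.1
      exact le_of_max h4 (mem_sp'.2 ⟨h5.1, by omega⟩)
  have h7 := F3 k (psh K F A0) (psh K F B0) (fun j => A j - psh K F A0 j)
    (fun j => B j - psh K F B0 j) i (by rw [deg_psh hF.le]; exact hA0)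
    (by rw [deg_psh hF.le]; exact hB0) hik (hmx A0 A hmA0 hA hmA) (hmx B0 B hmB0 hB hmB) h1
  refine bt_ext ?_ ?_ h7
  · intro j hj
    have := hA j hj
    change psh K F A0 j + (A j - psh K F A0 j) = A j
    omega
  · intro j hj
    have := hB j hj
    change psh K F B0 j + (B j - psh K F B0 j) = B j
    omega

theorem dom2 (hfaa : FaaStmt) {ρ : FIC} (hc : ClA ρ) {k j i p q p' q' : ℕ} {A B : ℕ → ℕ}
    (hji : j < i) (hik : i ≤ k) (hq : q ≠ 0) (hq' : q' ≠ 0) (hpq : 2 ≤ p + q)
    (hpq' : 2 ≤ p' + q') (hbt : Bt ρ 1 (v2 p q) (v2 p' q') 1) (hA1 : p ≤ A j) (hA2 : q ≤ A i)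
    (hB1 : p' ≤ B j) (hB2 : q' ≤ B i) (hmA : (sp k A).max = (i : WithBot ℕ))
    (hmB : (sp k B).max = (i : WithBot ℕ)) : Bt ρ k A B i := by
  refine dom hfaa hc (bmap_tb hji.le hik) (i0 := 1) rfl le_rfl (by rw [deg_v2]; exact hpq)
    (by rw [deg_v2]; exact hpq') (sp_v2_max p q hq) (sp_v2_max p' q' hq') hbt ?_ ?_ hmA hmB
  · intro l _
    rw [psh_tb]
    by_cases e1 : l = j
    · rw [if_pos e1, if_neg (by omega), e1]
      omega
    · rw [if_neg e1]
      by_cases e2 : l = i
      · rw [if_pos e2, e2]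
        omega
      · rw [if_neg e2]
        omega
  · intro l _
    rw [psh_tb]
    by_cases e1 : l = j
    · rw [if_pos e1, if_neg (by omega), e1]
      omega
    · rw [if_neg e1]
      by_cases e2 : l = i
      · rw [if_pos e2, e2]
        omega
      · rw [if_neg e2]
        omega

theorem dom3 (hfaa : FaaStmt) {ρ : FIC} (hc : ClA ρ) {k x y i p q r p' q' r' : ℕ}
    {A B : ℕ → ℕ}
    (hxy : x ≤ y) (hyi : y ≤ i) (hik : i ≤ k) (hr : r ≠ 0) (hr' : r' ≠ 0) (hpq : 2 ≤ p + q + r)
    (hpq' : 2 ≤ p' + q' + r') (hbt : Bt ρ 2 (v3 p q r) (v3 p' q' r') 2)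
    (hA : ∀ j ≤ k, (if j = x then p else 0) + (if j = y then q else 0) +
      (if j = i then r else 0) ≤ A j)
    (hB : ∀ j ≤ k, (if j = x then p' else 0) + (if j = y then q' else 0) +
      (if j = i then r' else 0) ≤ B j)
    (hmA : (sp k A).max = (i : WithBot ℕ))
    (hmB : (sp k B).max = (i : WithBot ℕ)) : Bt ρ k A B i := by
  refine dom hfaa hc (bmap_th hxy hyi hik) (i0 := 2) rfl le_rfl (by rw [deg_v3]; exact hpq)
    (by rw [deg_v3]; exact hpq') (sp_v3_max p q r hr) (sp_v3_max p' q' r' hr') hbt ?_ ?_ hmA hmB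
  · intro l hl
    rw [psh_th]
    exact hA l hl
  · intro l hl
    rw [psh_th]
    exact hB l hl

/-! ### reversal -/

/-- the reversed vector -/
def rv (k : ℕ) (a : ℕ → ℕ) : ℕ → ℕ := fun j => a (k - j)

theorem rv_rv {k j : ℕ} (a : ℕ → ℕ) (hj : j ≤ k) : rv k (rv k a) j = a j := by
  unfold rv
  rw [Nat.sub_sub_self hj]

theorem deg_rv (k : ℕ) (a : ℕ → ℕ) : deg k (rv k a) = deg k a := by
  unfold deg rv
  exact Finset.sum_range_reflect a (k + 1)

theorem rev_of {R R' : FC} (h : ∀ k a b, R'.R k a b ↔ R.R k (rv k a) (rv k b)) {k : ℕ}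
    {a b : ℕ → ℕ} (hr : R.R k a b) : R'.R k (rv k a) (rv k b) :=
  (h _ _ _).2 (R.ext (fun _ hj => (rv_rv a hj).symm) (fun _ hj => (rv_rv b hj).symm) hr)

theorem of_rev {R R' : FC} (h : ∀ k a b, R'.R k a b ↔ R.R k (rv k a) (rv k b)) {k : ℕ}
    {a y : ℕ → ℕ} (hr : R'.R k (rv k a) y) : R.R k a (rv k y) :=
  R.ext (fun _ hj => rv_rv a hj) (fun _ _ => rfl) ((h _ _ _).1 hr)

theorem of_rev2 {R R' : FC} (h : ∀ k a b, R'.R k a b ↔ R.R k (rv k a) (rv k b)) {k : ℕ}
    {a b : ℕ → ℕ} (hr : R'.R k (rv k a) (rv k b)) : R.R k a b :=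
  R.ext (fun _ hj => rv_rv a hj) (fun _ hj => rv_rv b hj) ((h _ _ _).1 hr)

/-- the last block of a vector is the first block of the reversed vector -/
theorem first {k i : ℕ} {a : ℕ → ℕ} (h : (sp k a).max = (i : WithBot ℕ)) :
    k - i ∈ pr k (rv k a) ∧ ∀ j ∈ pr k (rv k a), k - i ≤ j := by
  have h1 : i ≤ k ∧ a i ≠ 0 := mem_sp'.1 (Finset.mem_of_max h)
  have h0 : ∀ j ≤ k, j < k - i → rv k a j = 0 := by
    intro j hj hji
    by_contra h2
    have h3 := le_of_max h (mem_sp'.2 ⟨Nat.sub_le k j, h2⟩)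
    omega
  refine ⟨H39.mem_pr.2 ⟨⟨Nat.sub_le k i, ?_⟩, ?_⟩, ?_⟩
  · unfold rv
    rw [Nat.sub_sub_self h1.1]
    exact h1.2
  · intro j hj
    rw [h0 j (by omega) hj]
    omega
  · intro j hj
    by_contra h2
    have h3 := (H39.mem_pr.1 hj).1
    exact h3.2 (h0 j h3.1 (by omega))

/-- the reversed representative -/
theorem deg_rrp {k q d : ℕ} {C : Finset ℕ} (hC : C ⊆ Finset.range (k + 1)) (hq : q ∈ C)
    (hd : C.card ≤ d) : deg k (rv k (rp C q d)) = d := by
  rw [deg_rv, deg_rp hC hq hd]

theorem max_rrp {k i q d : ℕ} {C : Finset ℕ} (hC : C ⊆ Finset.range (k + 1)) (hq : q ∈ C)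
    (hik : i ≤ k) (hi : k - i ∈ C) (hmin : ∀ j ∈ C, k - i ≤ j) :
    (sp k (rv k (rp C q d))).max = (i : WithBot ℕ) := by
  apply max_of
  · rw [mem_sp']
    refine ⟨hik, ?_⟩
    have h1 : k - i ∈ sp k (rp C q d) := by rw [sp_rp hC hq]; exact hi
    exact (mem_sp'.1 h1).2
  · intro j hj
    have h1 := mem_sp'.1 hj
    have h2 : k - j ∈ sp k (rp C q d) := mem_sp'.2 ⟨Nat.sub_le k j, h1.2⟩
    rw [sp_rp hC hq] at h2
    have := hmin _ h2
    omega

theorem one_le_rrp {k q d j : ℕ} {C : Finset ℕ} (hj : k - j ∈ C) :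
    1 ≤ rv k (rp C q d) j := by
  unfold rv rp
  rw [if_pos hj]
  omega

theorem two_le_rrp {k q d j : ℕ} {C : Finset ℕ} (hj : k - j ∈ C) (hq : k - j = q)
    (hd : C.card < d) : 2 ≤ rv k (rp C q d) j := by
  unfold rv rp
  rw [if_pos hj, if_pos hq]
  omega

theorem jj_rev {β : FIC} {Sβ : FC} (hSβ : ∀ k a b, Sβ.R k a b ↔ (FC.ofFIC β).R k (rv k a) (rv k b))
    (h : JJ (FC.ofFIC β)) : Sβ.R 2 (v3 1 1 1) (v3 1 2 0) := by
  refine Sβ.ext ?_ ?_ (rev_of hSβ h)
  · intro j hj
    unfold rv v3
    have h2 : j = 0 ∨ j = 1 ∨ j = 2 := by omega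
    rcases h2 with h2 | h2 | h2 <;> subst h2 <;> rfl
  · intro j hj
    unfold rv v3
    have h2 : j = 0 ∨ j = 1 ∨ j = 2 := by omega
    rcases h2 with h2 | h2 | h2 <;> subst h2 <;> rfl

/-- the case `c = 1` -/
theorem case1 (hfaa : FaaStmt) {β ρ : FIC} (hle : β ≤ ρ) (hcβ : ClA β) (hr0 : R0 ρ)
    (hcl : ClauseA2 β) {Sβ Rr : FC} (hSβ : ∀ k a b, Sβ.R k a b ↔ (FC.ofFIC β).R k (rv k a) (rv k b))
    (hRr : ∀ k a b, Rr.R k a b ↔ (FC.ofFIC ρ).R k (rv k a) (rv k b)) (h3β : O3 Sβ)
    (h3ρ : O3 Rr) {k d i : ℕ} {a a' b : ℕ → ℕ} (hd : deg k a = d) (hd' : deg k a' = d)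
    (hd2 : 2 ≤ d) (hik : i ≤ k) (hma : (sp k a).max = (i : WithBot ℕ))
    (hma' : (sp k a').max = (i : WithBot ℕ)) (hmb : (sp k b).max = (i : WithBot ℕ))
    (hb2 : 2 ≤ deg k b) (hnβ : ¬ L1 β k a a') (hA : A3 Rr d)
    (hJ : ∀ m, 3 ≤ m → m ≤ (pr k (rv k a)).card → JP Rr m d) : Bt ρ k a b i := by
  have hc : ClA ρ := clA_mono hle hcβ
  obtain ⟨hp, hmin⟩ := first hma
  obtain ⟨hp', hmin'⟩ := first hma'
  have hasg0 : Rr.R k (rv k a) (sg (k - i) d) :=
    to_sg h3ρ (by rw [deg_rv, hd]) hd2 hA hJ hp hmin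
  have hsgrv : ∀ j ≤ k, rv k (sg (k - i) d) j = sg i d j := by
    intro j hj
    unfold rv sg
    by_cases e : j = i
    · rw [if_pos (by rw [e]), if_pos e]
    · rw [if_neg (by omega), if_neg e]
  have hasg : L1 ρ k a (sg i d) :=
    (FC.ofFIC ρ).ext (fun _ _ => rfl) hsgrv (of_rev hRr hasg0)
  -- `d e_i ~ (d-1) e_j + e_i`
  have hsgj : ∀ j < i, L1 ρ k (sg i d)
      (fun l => (if l = j then d - 1 else 0) + (if l = i then 1 else 0)) := by
    intro j hji
    have h1 := a3_push (R := Rr) (k := k) (p := k - i) (q := k - j) hA (by omega)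
      (Nat.sub_le k j)
    refine (FC.ofFIC ρ).ext hsgrv ?_ ((hRr _ _ _).1 h1)
    intro l hl
    unfold rv
    rw [psh_tb]
    by_cases e1 : l = j
    · have n1 : ¬ k - l = k - i := by omega
      have n2 : k - l = k - j := by rw [e1]
      have n3 : ¬ l = i := by omega
      rw [if_pos e1, if_neg n1, if_pos n2, if_neg n3, Nat.zero_add, Nat.add_zero]
    · rw [if_neg e1, if_neg (by omega : ¬ k - l = k - j)]
      by_cases e2 : l = i
      · rw [if_pos e2, if_pos (by rw [e2])]
      · rw [if_neg e2, if_neg (by omega)]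
  have hmsg : (sp k (sg i d)).max = (i : WithBot ℕ) := by
    apply max_of
    · rw [mem_sp']
      unfold sg
      rw [if_pos rfl]
      exact ⟨hik, by omega⟩
    · intro j hj
      have h1 := (mem_sp'.1 hj).2
      unfold sg at h1
      by_contra h2
      rw [if_neg (by omega)] at h1
      exact h1 rfl
  have hsgi : sg i d i = d := by unfold sg; rw [if_pos rfl]
  obtain ⟨_, F2, _, _, F5, F6⟩ := hfaa ρ hc
  have hbi : b i ≠ 0 := (mem_sp'.1 (Finset.mem_of_max hmb)).2
  by_cases hb : 2 ≤ b i
  · exact F2 k a (sg i d) b i hasg (F6 hr0 k (sg i d) b i hik (by omega) hb)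
  obtain ⟨j, hji, hbj⟩ := other hmb hb2 (by omega)
  by_cases hdd : d = 2
  · -- degree 2
    have h1 : L1 ρ k b (fun l => (b l - (if l = j then 1 else 0)) + (if l = i then 1 else 0)) := by
      have h2 := (FC.ofFIC ρ).symm (hsgj j hji)
      have h3 := (FC.ofFIC ρ).add
        (fun l => b l - (if l = j then 1 else 0) - (if l = i then 1 else 0)) h2
      refine (FC.ofFIC ρ).ext ?_ ?_ h3
      · intro l _
        by_cases e1 : l = j
        · rw [if_pos e1, if_neg (by omega), if_pos e1, e1]
          omega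
        · rw [if_neg e1, if_neg e1]
          by_cases e2 : l = i
          · rw [if_pos e2, e2]
            omega
          · rw [if_neg e2]
            omega
      · intro l _
        unfold sg
        by_cases e2 : l = i
        · rw [if_pos e2, if_pos e2, if_neg (by omega), e2]
          omega
        · rw [if_neg e2, if_neg e2]
          omega
    have h4 : Bt ρ k (sg i d)
        (fun l => (b l - (if l = j then 1 else 0)) + (if l = i then 1 else 0)) i := by
      apply F6 hr0 k _ _ i hik (by omega)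
      rw [if_neg (by omega), if_pos rfl]
      omega
    exact F2 k a (sg i d) b i hasg (F5 k b (sg i d) i (F2 k b _ (sg i d) i h1 (F5 k _ _ i h4)))
  · have hd3 : 3 ≤ d := by omega
    have hsu : Bt β 1 (v2 0 3) (v2 1 1) 1 ∨ Bt β 1 (v2 2 1) (v2 1 1) 1 := by
      obtain ⟨hc1, hc2, _⟩ := hcl
      rcases hc1 with h1 | h1 | h1
      · rcases hc2 with h2 | h2
        · exfalso
          apply hnβ
          -- `O1` and `JJ` in `β`
          have hS1 : Sβ.R 1 (v2 2 1) (v2 1 2) := by
            refine Sβ.symm (Sβ.ext ?_ ?_ (rev_of hSβ h1))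
            · intro j hj
              unfold rv v2
              by_cases e : j = 0
              · rw [if_pos e, if_neg (by omega), if_pos (by omega)]
              · rw [if_neg e, if_pos (by omega), if_pos (by omega)]
            · intro j hj
              unfold rv v2
              by_cases e : j = 0
              · rw [if_pos e, if_neg (by omega), if_pos (by omega)]
              · rw [if_neg e, if_pos (by omega), if_pos (by omega)]
          have hSA : A3 Sβ d := a3_of h3β hS1 hd3
          have hSJ : ∀ m, 3 ≤ m → JP Sβ m d := fun m hm => jp_of h3β (jj_rev hSβ h2) hm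
          have g1 : Sβ.R k (rv k a) (sg (k - i) d) :=
            to_sg h3β (by rw [deg_rv, hd]) hd2 hSA (fun m hm _ => hSJ m hm) hp hmin
          have g2 : Sβ.R k (rv k a') (sg (k - i) d) :=
            to_sg h3β (by rw [deg_rv, hd']) hd2 hSA (fun m hm _ => hSJ m hm) hp' hmin'
          exact of_rev2 hSβ (Sβ.trans g1 (Sβ.symm g2))
        · right
          have hf := (hfaa β hcβ).2.2.2.1 2 1 (th 0 0 1) (v3 2 0 1) (v3 0 1 1) 2
            (bmap_th (by omega) (by omega) (by omega)) (by rw [deg_v3]; omega)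
            (by rw [deg_v3]) (by omega) (sp_v3_max 2 0 1 (by omega))
            (sp_v3_max 0 1 1 (by omega)) h2
          refine bt_ext ?_ ?_ hf
          · intro l _
            rw [psh_th]
            unfold v2
            by_cases e : l = 0
            · simp [e]
            · by_cases e1 : l = 1
              · simp [e1]
              · simp [e, e1]
          · intro l _
            rw [psh_th]
            unfold v2
            by_cases e : l = 0
            · simp [e]
            · by_cases e1 : l = 1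
              · simp [e1]
              · simp [e, e1]
      · exact Or.inl h1
      · exact Or.inr h1
    rcases hsu with h1 | h1
    · have h2 : Bt ρ k (sg i d) b i :=
        dom2 hfaa hc hji hik (by omega) (by omega) (by omega) (by omega) (bt_mono hle h1)
          (Nat.zero_le _) (by omega) hbj (by omega) hmsg hmb
      exact F2 k a (sg i d) b i hasg h2
    · have h2 : Bt ρ k (fun l => (if l = j then d - 1 else 0) + (if l = i then 1 else 0)) b i := by
        refine dom2 hfaa hc hji hik (by omega) (by omega) (by omega) (by omega) (bt_mono hle h1)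
          ?_ ?_ hbj (by omega) ?_ hmb
        · rw [if_pos rfl]
          omega
        · rw [if_pos rfl]
          omega
        · apply max_of
          · rw [mem_sp']
            refine ⟨hik, ?_⟩
            rw [if_pos rfl]
            omega
          · intro l hl
            have h3 := (mem_sp'.1 hl).2
            by_contra h4
            change (if l = j then d - 1 else 0) + (if l = i then 1 else 0) ≠ 0 at h3
            rw [if_neg (by omega), if_neg (by omega)] at h3
            exact h3 rfl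
      exact F2 k a _ b i ((FC.ofFIC ρ).trans hasg (hsgj j hji)) h2

/-- the case `c ≥ 2` -/
theorem case2 (hfaa : FaaStmt) {β ρ : FIC} (hle : β ≤ ρ) (hcβ : ClA β)
    (hcl : ClauseA2 β) {Sβ Rr : FC} (hSβ : ∀ k a b, Sβ.R k a b ↔ (FC.ofFIC β).R k (rv k a) (rv k b))
    (hRr : ∀ k a b, Rr.R k a b ↔ (FC.ofFIC ρ).R k (rv k a) (rv k b)) (h3β : O3 Sβ)
    (h3ρ : O3 Rr) {k d i c : ℕ} {a a' b : ℕ → ℕ} (hd : deg k a = d) (hd' : deg k a' = d)
    (hik : i ≤ k) (hma : (sp k a).max = (i : WithBot ℕ))
    (hmb : (sp k b).max = (i : WithBot ℕ)) (hc2 : 2 ≤ c) (hcd : c < d)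
    (hb2 : 2 ≤ deg k b) (hnβ : ¬ L1 β k a a')
    (hca : c ≤ (pr k (rv k a)).card) (hca' : c ≤ (pr k (rv k a')).card)
    (htr : tr c (pr k (rv k a)) = tr c (pr k (rv k a')))
    (hJ : ∀ m, c < m → m ≤ (pr k (rv k a)).card → JP Rr m d) (hJc : JP Rr (c + 1) d) :
    Bt ρ k a b i := by
  have hc : ClA ρ := clA_mono hle hcβ
  obtain ⟨hp, hmin⟩ := first hma
  obtain ⟨_, F2, _, _, _, _⟩ := hfaa ρ hc
  have hCk : tr c (pr k (rv k a)) ⊆ Finset.range (k + 1) := tr_sub.trans pr_sub_range
  have hCc : (tr c (pr k (rv k a))).card = c := by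
    rw [card_tr]
    exact min_eq_left hca
  have hCp : k - i ∈ tr c (pr k (rv k a)) := min_mem_tr (by omega) hp hmin
  have hCmin : ∀ j ∈ tr c (pr k (rv k a)), k - i ≤ j := fun j hj => hmin j (tr_sub hj)
  obtain ⟨q, hq, hqq⟩ := exists_max ⟨_, hCp⟩
  have hqk : q ≤ k := by
    have := Finset.mem_range.1 (hCk hq)
    omega
  have hpq : k - i < q := by
    rcases Nat.lt_or_ge (k - i) q with h | h
    · exact h
    · exfalso
      have h4 : tr c (pr k (rv k a)) ⊆ {k - i} := by
        intro j hj
        have h5 := hqq j hj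
        have h6 := hCmin j hj
        rw [Finset.mem_singleton]
        omega
      have h7 := Finset.card_le_card h4
      rw [Finset.card_singleton] at h7
      omega
  generalize hC : tr c (pr k (rv k a)) = C at *
  have hdC : deg k (rp C q d) = d := deg_rp hCk hq (by omega)
  have hpC : pr k (rp C q d) = C := pr_rp hCk hq hqq
  -- `JJ` is not in `β`
  have hnJ : ¬ JJ (FC.ofFIC β) := by
    intro h2
    apply hnβ
    have hSJ : ∀ m, 3 ≤ m → JP Sβ m d := fun m hm => jp_of h3β (jj_rev hSβ h2) hm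
    have g1 : Sβ.R k (rv k a) (rp C q d) :=
      chain' h3β (by omega) (by rw [deg_rv, hd]) hdC hca (by rw [hpC, hC])
        (fun m hm _ => hSJ m (by omega))
    have g2 : Sβ.R k (rv k a') (rp C q d) :=
      chain' h3β (by omega) (by rw [deg_rv, hd']) hdC hca' (by rw [hpC, ← htr])
        (fun m hm _ => hSJ m (by omega))
    exact of_rev2 hSβ (Sβ.trans g1 (Sβ.symm g2))
  obtain ⟨_, hc2', hc3'⟩ := hcl
  have v1 : Bt ρ 2 (v3 2 0 1) (v3 0 1 1) 2 := bt_mono hle (hc2'.resolve_left hnJ)
  have haC0 : Rr.R k (rv k a) (rp C q d) :=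
    chain' h3ρ (by omega) (by rw [deg_rv, hd]) hdC hca (by rw [hpC, hC]) hJ
  have haC : L1 ρ k a (rv k (rp C q d)) := of_rev hRr haC0
  have hmC : (sp k (rv k (rp C q d))).max = (i : WithBot ℕ) := max_rrp hCk hq hik hCp hCmin
  -- `x = k - q` is the first block of the common final segment
  have hxi : k - q < i := by omega
  have hkx : k - (k - q) = q := Nat.sub_sub_self hqk
  have hCx : 2 ≤ rv k (rp C q d) (k - q) :=
    two_le_rrp (by rw [hkx]; exact hq) hkx (by omega)
  have hCi : 1 ≤ rv k (rp C q d) i := one_le_rrp hCp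
  have hbi : b i ≠ 0 := (mem_sp'.1 (Finset.mem_of_max hmb)).2
  refine F2 k a _ b i haC ?_
  by_cases hb : 2 ≤ b i
  · refine dom3 hfaa hc (x := k - q) (y := i) hxi.le le_rfl hik (by omega) (by omega)
      (by omega) (by omega) v1 ?_ ?_ hmC hmb
    · intro j _
      by_cases e1 : j = k - q
      · rw [if_pos e1, if_neg (by omega), if_neg (by omega), e1]
        omega
      · rw [if_neg e1]
        by_cases e2 : j = i
        · rw [if_pos e2, if_pos e2, e2]
          omega
        · rw [if_neg e2, if_neg e2]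
          omega
    · intro j _
      rw [ite_self]
      by_cases e2 : j = i
      · rw [if_pos e2, e2]
        omega
      · rw [if_neg e2]
        omega
  obtain ⟨j, hji, hbj⟩ := other hmb hb2 (by omega)
  by_cases hxj : k - q ≤ j
  · refine dom3 hfaa hc (x := k - q) (y := j) hxj hji.le hik (by omega) (by omega)
      (by omega) (by omega) v1 ?_ ?_ hmC hmb
    · intro l _
      by_cases e1 : l = k - q
      · rw [if_pos e1, if_neg (by omega : ¬ l = i), e1]
        split_ifs <;> omega
      · rw [if_neg e1]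
        by_cases e2 : l = i
        · rw [if_pos e2, if_neg (by omega), e2]
          omega
        · rw [if_neg e2]
          split_ifs <;> omega
    · intro l _
      by_cases e1 : l = j
      · rw [if_pos e1, if_neg (by omega : ¬ l = i), e1]
        split_ifs <;> omega
      · rw [if_neg e1]
        by_cases e2 : l = i
        · rw [if_pos e2, if_neg (by omega), e2]
          omega
        · rw [if_neg e2]
          split_ifs <;> omega
  -- `j < k - q`
  have hkj : k - (k - j) = j := Nat.sub_sub_self (by omega)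
  have hgen : ∀ l ≤ k, ∀ A : ℕ → ℕ, 1 ≤ A j → 1 ≤ A i →
      (if l = j then 1 else 0) + (if l = k - q then 0 else 0) + (if l = i then 1 else 0) ≤ A l := by
    intro l _ A h1 h2
    rw [ite_self]
    by_cases e1 : l = j
    · rw [if_pos e1, if_neg (by omega), e1]
      omega
    · rw [if_neg e1]
      by_cases e2 : l = i
      · rw [if_pos e2, e2]
        omega
      · rw [if_neg e2]
        omega
  rcases hc3'.resolve_left hnJ with v2 | h0
  · refine dom3 hfaa hc (x := j) (y := k - q) (by omega) hxi.le hik (by omega) (by omega)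
      (by omega) (by omega) (bt_mono hle v2) ?_ (fun l hl => hgen l hl b hbj (by omega)) hmC hmb
    intro l _
    rw [ite_self]
    by_cases e1 : l = k - q
    · rw [if_pos e1, if_neg (by omega : ¬ l = i), e1]
      omega
    · rw [if_neg e1]
      by_cases e2 : l = i
      · rw [if_pos e2, e2]
        omega
      · rw [if_neg e2]
        omega
  · -- the representative with the profile `{k - j} ∪ C`
    have hjC : k - j ∉ C := by
      intro h
      have := hqq _ h
      omega
    have hDk : insert (k - j) C ⊆ Finset.range (k + 1) := by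
      intro l hl
      rw [Finset.mem_insert] at hl
      rcases hl with h | h
      · rw [h, Finset.mem_range]
        omega
      · exact hCk h
    have hDc : (insert (k - j) C).card = c + 1 := by rw [Finset.card_insert_of_notMem hjC, hCc]
    have hDm : ∀ l ∈ insert (k - j) C, l ≤ k - j := by
      intro l hl
      rw [Finset.mem_insert] at hl
      rcases hl with h | h
      · exact h.le
      · have := hqq _ h
        omega
    have hDq : k - j ∈ insert (k - j) C := Finset.mem_insert_self _ _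
    have hdD : deg k (rp (insert (k - j) C) (k - j) d) = d := deg_rp hDk hDq (by omega)
    have hpD : pr k (rp (insert (k - j) C) (k - j) d) = insert (k - j) C := pr_rp hDk hDq hDm
    have hDC0 : Rr.R k (rp (insert (k - j) C) (k - j) d) (rp C q d) := by
      apply hJc k _ _ hdD hdC
      · rw [hpD, hDc]
      · rw [hpD, hpC]
        have h5 : c + 1 - 1 = (insert (k - j) C).card - 1 := by rw [hDc]
        rw [h5, tr_erase hDq hDm, Finset.erase_insert hjC]
    have hDC : L1 ρ k (rv k (rp C q d)) (rv k (rp (insert (k - j) C) (k - j) d)) :=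
      (FC.ofFIC ρ).symm ((hRr _ _ _).1 hDC0)
    refine F2 k _ _ b i hDC ?_
    have hmD : (sp k (rv k (rp (insert (k - j) C) (k - j) d))).max = (i : WithBot ℕ) := by
      apply max_rrp hDk hDq hik (Finset.mem_insert_of_mem hCp)
      intro l hl
      rw [Finset.mem_insert] at hl
      rcases hl with h | h
      · omega
      · exact hCmin l h
    have hDx : 1 ≤ rv k (rp (insert (k - j) C) (k - j) d) (k - q) :=
      one_le_rrp (by rw [hkx]; exact Finset.mem_insert_of_mem hq)
    have hDi : 1 ≤ rv k (rp (insert (k - j) C) (k - j) d) i :=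
      one_le_rrp (Finset.mem_insert_of_mem hCp)
    have hDj : 1 ≤ rv k (rp (insert (k - j) C) (k - j) d) j := one_le_rrp hDq
    refine dom3 hfaa hc (x := j) (y := k - q) (by omega) hxi.le hik (by omega) (by omega)
      (by omega) (by omega) (bt_mono hle h0) ?_ (fun l hl => hgen l hl b hbj (by omega)) hmD hmb
    intro l _
    by_cases e1 : l = k - q
    · rw [if_pos e1, if_neg (by omega : ¬ l = i), if_neg (by omega : ¬ l = j), e1]
      omega
    · rw [if_neg e1]
      by_cases e2 : l = i
      · rw [if_pos e2, if_neg (by omega : ¬ l = j), e2]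
        omega
      · rw [if_neg e2]
        by_cases e3 : l = j
        · rw [if_pos e3, e3]
          omega
        · rw [if_neg e3]
          omega

theorem min_of {P : Finset ℕ} {m : ℕ} (hm : m ∈ P) (h : ∀ j ∈ P, m ≤ j) :
    P.min = (m : WithTop ℕ) := by
  apply le_antisymm
  · exact Finset.min_le hm
  · apply Finset.le_min
    intro j hj
    exact WithTop.coe_le_coe.2 (h j hj)

end TabRow

open TabRow
open Pool.Agent.MVO.H65.TacRow

theorem tab (hopf : OpfStmt) (hocr : OcrStmt) (hfaa : FaaStmt) : TabStmt := by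
  intro β hcβ hr0 hO2 hcl ρ hle _ k a a' hd hdd h1
  by_cases hnβ : L1 β k a a'
  · exact Or.inl hnβ
  right
  suffices H : ∀ b : ℕ → ℕ, 2 ≤ deg k b → ∀ i ≤ k, Bt ρ k a b i from
    fun b e hb i hi => H b hb i hi e
  intro b hb i hi
  have hc : ClA ρ := clA_mono hle hcβ
  have hr0ρ : R0 ρ := rr_mono hle hr0
  obtain ⟨F0, F2, _, _, _, _⟩ := hfaa ρ hc
  by_cases hmax : (sp k a).max = (i : WithBot ℕ) ∧ (sp k b).max = (i : WithBot ℕ)
  swap
  · exact F0 k a b i hd hb hi hmax
  obtain ⟨hma, hmb⟩ := hmax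
  by_cases hma' : (sp k a').max = (i : WithBot ℕ)
  swap
  · exact F2 k a a' b i h1 (F0 k a' b i (by omega) hb hi (fun h => hma' h.1))
  obtain ⟨Rr, hRr, hRr3⟩ := hopf (FC.ofFIC ρ)
  obtain ⟨Sβ, hSβ, hSβ3⟩ := hopf (FC.ofFIC β)
  have h3ρ : O3 Rr := hRr3 (rr_mono hle hO2)
  have h3β : O3 Sβ := hSβ3 hO2
  obtain ⟨hp, hmin⟩ := first hma
  obtain ⟨hp', hmin'⟩ := first hma'
  have hPP : pr k (rv k a) ≠ pr k (rv k a') := by
    intro he
    apply hnβ
    exact of_rev2 hSβ (H39.oca Sβ k _ _ h3β (by rw [deg_rv, deg_rv, hdd]) he)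
  have hrel : Rr.R k (rv k a) (rv k a') := rev_of hRr h1
  obtain ⟨C1, C2, _, _, _⟩ := hocr Rr k (rv k a) (rv k a') h3ρ (by rw [deg_rv]; exact hd)
    (by rw [deg_rv, deg_rv, hdd]) hrel hPP
  rw [deg_rv] at C1 C2
  have hex : ∃ m, tr m (pr k (rv k a)) ≠ tr m (pr k (rv k a')) := by
    refine ⟨max (pr k (rv k a)).card (pr k (rv k a')).card, ?_⟩
    rw [tr_eq_self (le_max_left _ _), tr_eq_self (le_max_right _ _)]
    exact hPP
  classical
  obtain ⟨M, hM, hMmin⟩ : ∃ M, tr M (pr k (rv k a)) ≠ tr M (pr k (rv k a')) ∧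
      ∀ m < M, tr m (pr k (rv k a)) = tr m (pr k (rv k a')) := by
    refine ⟨Nat.find hex, Nat.find_spec hex, fun m hm => ?_⟩
    by_contra h
    exact Nat.find_min hex hm h
  have hup : ∀ m, M ≤ m → tr m (pr k (rv k a)) ≠ tr m (pr k (rv k a')) := by
    intro m hm he
    apply hM
    rw [← tr_tr hm, ← tr_tr hm (pr k (rv k a')), he]
  have hM0 : M ≠ 0 := by
    rintro rfl
    exact hM (by rw [tr_zero, tr_zero])
  have hM1 : M ≠ 1 := by
    rintro rfl
    exact hM (by rw [tr_one hp hmin, tr_one hp' hmin'])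
  have hMc : M ≤ (pr k (rv k a)).card ∨ M ≤ (pr k (rv k a')).card := by
    by_contra h
    have h5 := hMmin (M - 1) (by omega)
    rw [tr_eq_self (by omega), tr_eq_self (by omega)] at h5
    exact hPP h5
  have hJ : ∀ m, 3 ≤ m → M ≤ m → m ≤ (pr k (rv k a)).card → JP Rr m (deg k a) :=
    fun m h3 hm hm' => C1 m h3 (hup m hm) (Or.inl hm')
  by_cases hM2 : M = 2
  · have hminmin : (pr k (rv k a)).min = (pr k (rv k a')).min := by
      rw [min_of hp hmin, min_of hp' hmin']
    exact case1 hfaa hle hcβ hr0ρ hcl hSβ hRr h3β h3ρ rfl hdd.symm hd hi hma hma' hmb hb hnβ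
      (C2 hminmin (by rw [← hM2]; exact hM)) (fun m hm hm' => hJ m hm (by omega) hm')
  · have hcard : (tr (M - 1) (pr k (rv k a))).card = (tr (M - 1) (pr k (rv k a'))).card := by
      rw [hMmin (M - 1) (by omega)]
    rw [card_tr, card_tr] at hcard
    have hda : (pr k (rv k a)).card ≤ deg k a := by
      have := card_pr_le (k := k) (a := rv k a)
      rw [deg_rv] at this
      exact this
    have hda' : (pr k (rv k a')).card ≤ deg k a := by
      have := card_pr_le (k := k) (a := rv k a')
      rw [deg_rv] at this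
      omega
    refine case2 hfaa hle hcβ hcl hSβ hRr h3β h3ρ (c := M - 1) rfl hdd.symm hi hma hmb
      (by omega) (by omega) hb hnβ (by omega) (by omega) (hMmin (M - 1) (by omega))
      (fun m hm hm' => hJ m (by omega) (by omega) hm') ?_
    have h6 : M - 1 + 1 = M := by omega
    rw [h6]
    exact C1 M (by omega) hM hMc

end Pool.Agent.MVO.H41
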