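import Pool.Agent.MVO.StmtsL

/-!
MVO, row WUB: unbalanced relations over `O2` by reversal.
-/

namespace Pool.Agent.MVO.H41

open Pool.Agent.Helper14_MV Pool.Agent.Helper2_MV Pool.Agent.MVO

theorem wub_deg (k : ℕ) (a : ℕ → ℕ) : deg k (fun j => a (k - j)) = deg k a := by
  unfold deg
  have h := Finset.sum_range_reflect a (k + 1)
  rw [← h]
  refine Finset.sum_congr rfl fun j _ => ?_
  congr 1

theorem wub (hopf : OpfStmt) (hwuc : WucStmt) : WubStmt := by
  intro R hO2 hK k a b h2 hne hab
  obtain ⟨R', hR', hO3⟩ := hopf R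
  have hrev : ∀ (k : ℕ) (x y : ℕ → ℕ), R.R k x y →
      R'.R k (fun j => x (k - j)) (fun j => y (k - j)) := by
    intro k x y h
    rw [hR']
    refine R.ext ?_ ?_ h
    · intro j hj
      have : k - (k - j) = j := by omega
      simp only [this]
    · intro j hj
      have : k - (k - j) = j := by omega
      simp only [this]
  obtain ⟨K, hK⟩ := hK
  have hK' : ∃ K, ∀ m, K ≤ m → R'.R 1 (v2 m 0) (v2 0 m) := by
    refine ⟨K, fun m hm => ?_⟩
    rw [hR']
    refine R.ext ?_ ?_ (R.symm (hK m hm))
    · intro j hj
      interval_cases j <;> simp [v2]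
    · intro j hj
      interval_cases j <;> simp [v2]
  have h := hwuc R' (hO3 hO2) hK' k (fun j => a (k - j)) (fun j => b (k - j))
    (by rw [wub_deg]; exact h2) (by rw [wub_deg, wub_deg]; exact hne) (hrev k a b hab)
  rw [wub_deg] at h
  refine ⟨fun j hj => ?_, ?_⟩
  · have h1 := h.1 (k - j) (by omega)
    rw [hR'] at h1
    refine R.ext ?_ ?_ h1
    · intro i hi
      have : k - (k - i) = i := by omega
      simp only [this]
    · intro i hi
      simp only [sg]
      by_cases hij : i = j
      · subst hij
        rw [if_pos rfl, if_pos rfl]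
      · rw [if_neg (by omega), if_neg hij]
  · have h1 := h.2
    rw [hR'] at h1
    refine R.symm (R.ext ?_ ?_ h1)
    · intro j hj
      interval_cases j <;> simp [v2]
    · intro j hj
      interval_cases j <;> simp [v2]

end Pool.Agent.MVO.H41
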